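import Mathlib

set_option autoImplicit false

namespace Pool.Agent.H.MP_55ecfc_an
open Set Filter Topology

noncomputable def F (ξ x : ℝ) : ℝ := max (x + 1) 0 - ξ * max (-(x + 1)) 0 - 1

lemma F_up (ξ : ℝ) {x : ℝ} (h : -1 ≤ x) : F ξ x = x := by
  rw [F, max_eq_left (by linarith), max_eq_right (by linarith)]; ring

lemma F_lo (ξ : ℝ) {x : ℝ} (h : x ≤ -1) : F ξ x = ξ * (x + 1) - 1 := by
  rw [F, max_eq_right (by linarith), max_eq_left (by linarith)]; ring

structure Sol (k ξ : ℝ) (z0 z1 z2 z3 : ℝ → ℝ) : Prop where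
  d0 : ∀ t, HasDerivAt z0 (z1 t) t
  d1 : ∀ t, HasDerivAt z1 (z2 t) t
  d2 : ∀ t, HasDerivAt z2 (z3 t) t
  d3 : ∀ t, HasDerivAt z3 (-(k * z2 t) - F ξ (z0 t)) t
  b0 : Tendsto z0 atBot (𝓝 0)
  b1 : Tendsto z1 atBot (𝓝 0)
  t0 : Tendsto z0 atTop (𝓝 0)
  t1 : Tendsto z1 atTop (𝓝 0)

variable {k ξ σ : ℝ} {z0 z1 z2 z3 : ℝ → ℝ}

lemma Sol.rev (h : Sol k ξ z0 z1 z2 z3) (T : ℝ) : Sol k ξ (fun t => z0 (T - t))
    (fun t => -z1 (T - t)) (fun t => z2 (T - t)) (fun t => -z3 (T - t)) := by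
  have a : Tendsto (fun t => T - t) atBot atTop :=
    tendsto_atTop_add_const_left _ T tendsto_neg_atBot_atTop
  have b : Tendsto (fun t => T - t) atTop atBot :=
    tendsto_atBot_add_const_left _ T tendsto_neg_atTop_atBot
  exact ⟨fun t => (h.d0 _).comp_const_sub T t, fun t => by
      simpa using ((h.d1 _).comp_const_sub T t).fun_neg, fun t => (h.d2 _).comp_const_sub T t,
    fun t => ((h.d3 _).comp_const_sub T t).fun_neg.congr_deriv (neg_neg _), h.t0.comp a,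
    by simpa using (h.t1.comp a).neg, h.b0.comp b, by simpa using (h.b1.comp b).neg⟩

lemma cst {f : ℝ → ℝ} {a b : ℝ} (hab : a ≤ b) (h : ∀ t ∈ Icc a b, HasDerivAt f 0 t) : f b = f a :=
  constant_of_has_deriv_right_zero (fun t ht => (h t ht).continuousAt.continuousWithinAt)
    (fun t ht => (h t (Ico_subset_Icc_self ht)).hasDerivWithinAt) b (right_mem_Icc.2 hab)

lemma Sol.left (h : Sol k ξ z0 z1 z2 z3) (hσ : 0 < σ) (hσ1 : σ < 1) (hk : k = 2 - 4 * σ ^ 2)
    {T : ℝ} (hT : ∀ t ≤ T, -1 ≤ z0 t) :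
    z2 T = 2 * σ * z1 T - z0 T ∧ z3 T = 2 * σ * z2 T - z1 T := by
  obtain ⟨B, hB⟩ : ∃ B : ℝ → ℝ, B = fun t => z3 t + (1 - 4 * σ ^ 2) * z1 t + 2 * σ * z0 t := ⟨_, rfl⟩
  obtain ⟨g, hg⟩ : ∃ g : ℝ → ℝ, g = fun t => z2 t - 2 * σ * z1 t + z0 t := ⟨_, rfl⟩
  obtain ⟨A, hA⟩ : ∃ A : ℝ → ℝ, A = fun t => 4 * σ * z0 t - B t := ⟨_, rfl⟩
  obtain ⟨H, hH⟩ : ∃ H : ℝ → ℝ, H = fun t => 4 * σ * z1 t + g t := ⟨_, rfl⟩
  have dB : ∀ t ≤ T, HasDerivAt B (-g t) t := fun t ht => by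
    rw [hB, hg]
    refine (((h.d3 t).fun_add ((h.d1 t).const_mul _)).fun_add ((h.d0 t).const_mul _)).congr_deriv ?_
    rw [F_up ξ (hT t ht), hk]; ring
  have dg : ∀ t, HasDerivAt g (B t - 2 * σ * g t) t := fun t => by
    rw [hB, hg]
    exact (((h.d2 t).fun_sub ((h.d1 t).const_mul _)).fun_add (h.d0 t)).congr_deriv (by ring)
  have dA : ∀ t ≤ T, HasDerivAt A (H t) t := fun t ht => by
    rw [hA, hH]
    exact (((h.d0 t).const_mul _).fun_sub (dB t ht)).congr_deriv (by ring)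
  have dH : ∀ t, HasDerivAt H (2 * σ * H t - A t) t := fun t => by
    rw [hA, hH]
    exact (((h.d1 t).const_mul _).fun_add (dg t)).congr_deriv (by simp only [hg]; ring)
  have ex : ∀ c t : ℝ, HasDerivAt (fun t => Real.exp (c * t)) (Real.exp (c * t) * c) t :=
    fun c t => by simpa using ((hasDerivAt_id t).const_mul c).exp
  have e0 : Tendsto (fun t => Real.exp (2 * σ * t)) atBot (𝓝 0) :=
    Real.tendsto_exp_atBot.comp (tendsto_id.const_mul_atBot (by positivity))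
  have EA : ∀ t ≤ T, (A T ^ 2 - 2 * σ * (A T * H T) + H T ^ 2) * Real.exp (-(2 * σ) * T) =
      (A t ^ 2 - 2 * σ * (A t * H t) + H t ^ 2) * Real.exp (-(2 * σ) * t) := fun t ht =>
    cst (f := fun t => (A t ^ 2 - 2 * σ * (A t * H t) + H t ^ 2) * Real.exp (-(2 * σ) * t)) ht
      fun s hs => (((((dA s hs.2).fun_pow 2).fun_sub (((dA s hs.2).fun_mul (dH s)).const_mul _)).fun_add
        ((dH s).fun_pow 2)).fun_mul (ex _ s)).congr_deriv (by norm_num; ring)
  have EB : ∀ t ≤ T, (B T ^ 2 - 2 * σ * (B T * g T) + g T ^ 2) * Real.exp (2 * σ * T) =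
      (B t ^ 2 - 2 * σ * (B t * g t) + g t ^ 2) * Real.exp (2 * σ * t) := fun t ht =>
    cst (f := fun t => (B t ^ 2 - 2 * σ * (B t * g t) + g t ^ 2) * Real.exp (2 * σ * t)) ht
      fun s hs => (((((dB s hs.2).fun_pow 2).fun_sub (((dB s hs.2).fun_mul (dg s)).const_mul _)).fun_add
        ((dg s).fun_pow 2)).fun_mul (ex _ s)).congr_deriv (by norm_num; ring)
  set C := (A T ^ 2 - 2 * σ * (A T * H T) + H T ^ 2) * Real.exp (-(2 * σ) * T)
  have l1 : Tendsto (fun t => C / (1 - σ) * Real.exp (2 * σ * t)) atBot (𝓝 0) := by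
    simpa using e0.const_mul (C / (1 - σ))
  have s1 : 0 < 1 - σ := by linarith
  have bd : ∀ t ≤ T, A t ^ 2 + H t ^ 2 ≤ C / (1 - σ) * Real.exp (2 * σ * t) := fun t ht => by
    rw [EA t ht, div_mul_eq_mul_div, mul_assoc, ← Real.exp_add, le_div_iff₀ s1]
    simp only [neg_mul, neg_add_cancel, Real.exp_zero, mul_one]
    nlinarith [mul_nonneg hσ.le (sq_nonneg (A t - H t))]
  have sq0 : ∀ f : ℝ → ℝ, (∀ t, f t ^ 2 ≤ A t ^ 2 + H t ^ 2) → Tendsto f atBot (𝓝 0) := fun f hf => by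
    have : Tendsto (fun t => f t ^ 2) atBot (𝓝 0) :=
      squeeze_zero' (.of_forall fun t => sq_nonneg _)
        ((eventually_le_atBot T).mono fun t ht => (hf t).trans (bd t ht)) l1
    rw [tendsto_zero_iff_abs_tendsto_zero]
    simpa [Function.comp_def, Real.sqrt_sq_eq_abs] using this.sqrt
  have lA := sq0 A fun t => by nlinarith [sq_nonneg (H t)]
  have lH := sq0 H fun t => by nlinarith [sq_nonneg (A t)]
  have lB : Tendsto B atBot (𝓝 0) := by
    simpa [hA] using (h.b0.const_mul (4 * σ)).sub lA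
  have lg : Tendsto g atBot (𝓝 0) := by
    simpa [hH] using lH.sub (h.b1.const_mul (4 * σ))
  have l2 := ((((lB.pow 2).sub ((lB.mul lg).const_mul (2 * σ))).add (lg.pow 2)).mul e0).congr'
    ((eventually_le_atBot T).mono fun t ht => (EB t ht).symm)
  have l3 := tendsto_nhds_unique l2 tendsto_const_nhds
  rw [mul_zero, eq_comm, mul_eq_zero, or_iff_left (Real.exp_pos _).ne'] at l3
  have q : B T ^ 2 + g T ^ 2 ≤ 0 := by
    nlinarith [mul_nonneg hσ.le (sq_nonneg (B T - g T)), sq_nonneg (B T), sq_nonneg (g T)]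
  have q1 : B T = 0 := by nlinarith [sq_nonneg (B T), sq_nonneg (g T)]
  have q2 : g T = 0 := by nlinarith [sq_nonneg (B T), sq_nonneg (g T)]
  simp only [hB, hg] at q1 q2
  constructor
  · linarith
  · linear_combination q1 - 2 * σ * q2

lemma Sol.sign (h : Sol k ξ z0 z1 z2 z3) {T : ℝ} (hT : ∀ t ≤ T, -1 ≤ z0 t) (e : z0 T = -1) :
    z1 T ≤ 0 := by
  refine le_of_tendsto (hasDerivAt_iff_tendsto_slope_left_right.1 (h.d0 T)).1 ?_
  filter_upwards [self_mem_nhdsWithin] with t ht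
  rw [slope_def_field, e]
  exact div_nonpos_of_nonneg_of_nonpos (by linarith [hT t (le_of_lt ht)]) (sub_nonpos.2 (le_of_lt ht))

lemma Sol.uniq {w0 w1 w2 w3 : ℝ → ℝ} (h : Sol k ξ z0 z1 z2 z3) (h' : Sol k ξ w0 w1 w2 w3) {T : ℝ}
    (e0 : z0 T = w0 T) (e1 : z1 T = w1 T) (e2 : z2 T = w2 T) (e3 : z3 T = w3 T) : z0 = w0 := by
  let v : ℝ × ℝ × ℝ × ℝ → ℝ × ℝ × ℝ × ℝ := fun x =>
    (x.2.1, x.2.2.1, x.2.2.2, -(k * x.2.2.1) - F ξ x.1)
  have m : ∀ c : ℝ, LipschitzWith ‖c‖₊ fun x : ℝ => c * x := fun c => lipschitzWith_smul c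
  have a1 : LipschitzWith _ fun x : ℝ => x + 1 := LipschitzWith.id.add (LipschitzWith.const 1)
  have hF : LipschitzWith _ (F ξ) :=
    ((a1.max_const 0).sub ((m ξ).comp (a1.neg.max_const 0))).sub (LipschitzWith.const 1)
  have p2 : LipschitzWith _ fun x : ℝ × ℝ × ℝ × ℝ => x.2.2 :=
    LipschitzWith.prod_snd.comp LipschitzWith.prod_snd
  have hv : LipschitzWith _ v := (LipschitzWith.prod_fst.comp LipschitzWith.prod_snd).prodMk
    ((LipschitzWith.prod_fst.comp p2).prodMk ((LipschitzWith.prod_snd.comp p2).prodMk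
      (((m k).comp (LipschitzWith.prod_fst.comp p2)).neg.sub (hF.comp LipschitzWith.prod_fst))))
  have := ODE_solution_unique_univ (v := fun _ => v) (s := fun _ => univ) (t₀ := T)
    (f := fun t => (z0 t, z1 t, z2 t, z3 t)) (g := fun t => (w0 t, w1 t, w2 t, w3 t))
    (fun _ => hv.lipschitzOnWith)
    (fun t => ⟨(h.d0 t).prodMk ((h.d1 t).prodMk ((h.d2 t).prodMk (h.d3 t))), trivial⟩)
    (fun t => ⟨(h'.d0 t).prodMk ((h'.d1 t).prodMk ((h'.d2 t).prodMk (h'.d3 t))), trivial⟩)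
    (by simp [e0, e1, e2, e3])
  funext t
  exact congrArg Prod.fst (congrFun this t)

lemma Sol.core (h : Sol k ξ z0 z1 z2 z3) (hσ : 0 < σ) (hσ1 : σ < 1) (hk : k = 2 - 4 * σ ^ 2)
    {m n : ℝ} (hm : 0 < m) (hmn : m + n = k) (hξ : m * n = ξ) {a b : ℝ} (hab : a ≤ b)
    (ha : ∀ t ≤ a, -1 ≤ z0 t) (hb : ∀ t, b ≤ t → -1 ≤ z0 t) (hi : ∀ t ∈ Icc a b, z0 t ≤ -1) (t : ℝ) :
    z0 ((a + b) / 2 + t) = z0 ((a + b) / 2 - t) := by
  have h' := h.rev (a + b)
  have hb' : ∀ t ≤ a, -1 ≤ z0 (a + b - t) := fun t ht => hb _ (by linarith)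
  have ea : z0 a = -1 := le_antisymm (hi a (left_mem_Icc.2 hab)) (ha a le_rfl)
  have eb : z0 b = -1 := le_antisymm (hi b (right_mem_Icc.2 hab)) (hb b le_rfl)
  obtain ⟨a2, a3⟩ := h.left hσ hσ1 hk ha
  obtain ⟨b2, b3⟩ := h'.left hσ hσ1 hk hb'
  have a1 := h.sign ha ea
  have b1 := h'.sign hb' (by simpa using eb)
  simp only [add_sub_cancel_left] at b1 b2 b3
  have I := cst (f := fun t => (m * z2 t + ξ * z0 t - (1 - ξ)) ^ 2 + m * (z3 t + n * z1 t) ^ 2) hab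
    fun s hs => ((((((h.d2 s).const_mul m).fun_add ((h.d0 s).const_mul ξ)).sub_const _).fun_pow 2).fun_add
      ((((h.d3 s).fun_add ((h.d1 s).const_mul n)).fun_pow 2).const_mul m)).congr_deriv (by
        rw [F_lo ξ (hi s hs), ← hmn, ← hξ]; norm_num; ring)
  have z3b : z3 b = -(2 * σ * z2 b + z1 b) := by linarith
  have hn : n = 2 - 4 * σ ^ 2 - m := by linarith
  simp only [a3, z3b, a2, b2, ea, eb, hn] at I
  have κ : 0 < 4 * σ ^ 2 * m ^ 2 + m * (1 - m) ^ 2 := by positivity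
  have e : (4 * σ ^ 2 * m ^ 2 + m * (1 - m) ^ 2) * ((z1 a) ^ 2 - (-z1 b) ^ 2) = 0 := by
    linear_combination -I
  have e1 : z1 a = -z1 b := by
    have := sub_eq_zero.1 ((mul_eq_zero.1 e).resolve_left κ.ne')
    rw [← neg_sq, ← neg_sq (-z1 b)] at this
    exact neg_injective ((pow_left_inj₀ (by linarith) (by linarith) two_ne_zero).1 this)
  have e2 : z2 a = z2 b := by rw [a2, b2, e1, ea, eb]
  have := congrFun (h.uniq h' (T := a) (by simp [ea, eb]) (by simpa using e1) (by simpa using e2)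
    (by simp only [add_sub_cancel_left]; rw [a3, b3, e1, e2])) ((a + b) / 2 + t)
  rw [this]; congr 1; ring

lemma out {f : ℝ → ℝ} (hf : Continuous f) {s : Set ℝ} (hs : IsPreconnected s)
    (h : ∀ t ∈ s, f t ≠ -1) {x : ℝ} (hx : x ∈ s) (hx' : -1 < f x) : ∀ t ∈ s, -1 < f t := by
  intro t ht
  by_contra hc
  obtain ⟨y, hy, e⟩ := hs.intermediate_value ht hx hf.continuousOn ⟨not_lt.1 hc, hx'.le⟩
  exact h y hy e

theorem main (c ξ : ℝ) (hc : 0 < c ^ 2) (hc2 : c ^ 2 < 2) (hξ : ξ < c ^ 4 / 4)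
    (z : ℝ → ℝ) (hz : ContDiff ℝ 4 z)
    (he : ∀ t, iteratedDeriv 4 z t + c ^ 2 * iteratedDeriv 2 z t + max (z t + 1) 0 -
      ξ * max (-(z t + 1)) 0 - 1 = 0)
    (h0 : Tendsto z (atBot ⊔ atTop) (𝓝 0)) (h1 : Tendsto (deriv z) (atBot ⊔ atTop) (𝓝 0))
    (h : (∃ a b, a < b ∧ {t | z t < -1} = Ioo a b) ∨ {t | z t = -1}.ncard = 2) :
    ∃ s, ∀ t, z (s + t) = z (s - t) := by
  have d : ∀ i : ℕ, i < 4 → ∀ t, HasDerivAt (iteratedDeriv i z) (iteratedDeriv (i + 1) z t) t :=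
    fun i hi t => by
      rw [iteratedDeriv_succ]
      exact (hz.differentiable_iteratedDeriv i (by exact_mod_cast hi) t).hasDerivAt
  have S : Sol (c ^ 2) ξ z (deriv z) (iteratedDeriv 2 z) (iteratedDeriv 3 z) :=
    ⟨by simpa using d 0 (by norm_num), by simpa using d 1 (by norm_num), d 2 (by norm_num),
      fun t => (d 3 (by norm_num) t).congr_deriv (by have := he t; rw [F]; linarith),
      h0.mono_left le_sup_left, h1.mono_left le_sup_left, h0.mono_left le_sup_right,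
      h1.mono_left le_sup_right⟩
  have hσ : 0 < √((2 - c ^ 2) / 4) := Real.sqrt_pos.2 (by linarith)
  have hσ1 : √((2 - c ^ 2) / 4) < 1 := (Real.sqrt_lt' one_pos).2 (by linarith)
  have hk : c ^ 2 = 2 - 4 * √((2 - c ^ 2) / 4) ^ 2 := by rw [Real.sq_sqrt (by linarith)]; ring
  have D := Real.sq_sqrt (show 0 ≤ c ^ 4 - 4 * ξ by linarith)
  have key := fun a b => S.core hσ hσ1 hk (m := (c ^ 2 + √(c ^ 4 - 4 * ξ)) / 2)
    (n := (c ^ 2 - √(c ^ 4 - 4 * ξ)) / 2) (by positivity) (by ring)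
    (by linear_combination (-1 / 4) * D) (a := a) (b := b)
  have zc := hz.continuous
  rcases h with ⟨a, b, hab, h⟩ | h
  · have n : ∀ t, t ∉ Ioo a b → -1 ≤ z t := fun t ht => not_lt.1 fun e => ht (h ▸ e)
    refine ⟨_, key a b hab.le (fun t ht => n t fun e => e.1.not_ge ht)
      (fun t ht => n t fun e => e.2.not_ge ht) ?_⟩
    rw [← closure_Ioo hab.ne, ← h]
    exact fun t ht => (isClosed_le zc continuous_const).closure_subset_iff.2
      (fun s (hs : z s < -1) => hs.le) ht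
  · obtain ⟨a, b, hab, h⟩ : ∃ a b, a < b ∧ {t | z t = -1} = {a, b} := by
      obtain ⟨a, b, hab, h⟩ := ncard_eq_two.1 h
      rcases lt_or_gt_of_ne hab with e | e
      exacts [⟨a, b, e, h⟩, ⟨b, a, e, by rw [h, pair_comm]⟩]
    have n : ∀ t, t ≠ a → t ≠ b → z t ≠ -1 := fun t h1 h2 e => by
      have : t ∈ ({a, b} : Set ℝ) := h ▸ e
      simp [h1, h2] at this
    have ea : z a = -1 := by have : a ∈ {t | z t = -1} := h ▸ mem_insert _ _
                             exact this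
    have eb : z b = -1 := by have : b ∈ {t | z t = -1} := h ▸ mem_insert_of_mem _ rfl
                             exact this
    have la : ∀ t ≤ a, -1 ≤ z t := fun t ht => by
      obtain ⟨x, hx, hx'⟩ := ((eventually_lt_atBot a).and
        (S.b0.eventually (lt_mem_nhds (show (-1 : ℝ) < 0 by norm_num)))).exists
      rcases ht.eq_or_lt with rfl | ht
      exacts [ea.ge, (out zc isPreconnected_Iio
        (fun s hs => n s (ne_of_lt hs) (lt_trans hs hab).ne) hx hx' t ht).le]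
    have lb : ∀ t, b ≤ t → -1 ≤ z t := fun t ht => by
      obtain ⟨x, hx, hx'⟩ := ((eventually_gt_atTop b).and
        (S.t0.eventually (lt_mem_nhds (show (-1 : ℝ) < 0 by norm_num)))).exists
      rcases ht.eq_or_lt with rfl | ht
      exacts [eb.ge, (out zc isPreconnected_Ioi
        (fun s hs => n s (lt_trans hab hs).ne' (ne_of_gt hs)) hx hx' t ht).le]
    refine ⟨_, key a b hab.le la lb fun x hx => ?_⟩
    by_contra hc'
    have hx' := not_le.1 hc'
    have x1 : x ∈ Ioo a b := ⟨lt_of_le_of_ne hx.1 (by rintro rfl; linarith),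
      lt_of_le_of_ne hx.2 (by rintro rfl; linarith)⟩
    have all : ∀ t, -1 ≤ z t := fun t => by
      rcases le_or_gt t a with e | e
      · exact la t e
      rcases le_or_gt b t with e' | e'
      · exact lb t e'
      exact (out zc isPreconnected_Ioo (fun s hs => n s hs.1.ne' hs.2.ne) x1 hx' t ⟨e, e'⟩).le
    obtain ⟨a2, a3⟩ := S.left hσ hσ1 hk (T := a) fun t _ => all t
    obtain ⟨b2, b3⟩ := (S.rev a).left hσ hσ1 hk (T := 0) fun t _ => all _
    simp only [sub_zero] at b2 b3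
    have q1 : √((2 - c ^ 2) / 4) * iteratedDeriv 2 z a = 0 := by linarith
    have q2 := (mul_eq_zero.1 q1).resolve_left hσ.ne'
    linarith

end Pool.Agent.H.MP_55ecfc_an
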